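import Mathlib

/-!
# MP_70580c_co: with four translates instead of three

For every non-empty compact convex `K` in the plane and every family of sets `X i` whose points from
different members are at `ρ`-distance at most `2`, all but at most two of the sets can be covered by
four translates of `K`; so for three sets one of them can.

Proof: take a parallelogram `p, p + a, p + b, p + a + b` with vertices in `K` of the largest area.
If it is not degenerate then, in the coordinates given by `a` and `b`, the set `K` has both widths at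
most `2`; each coordinate is `bad` (has width more than `2`) for at most one of the sets; a set which
is good for both coordinates is covered by four translates of the parallelogram.
-/

set_option autoImplicit false

open scoped Pointwise ENNReal NNReal

namespace Pool.Agent.Results.MP_70580c_co.FourTranslates

/-- The Euclidean plane. -/
abbrev Plane := EuclideanSpace ℝ (Fin 2)

/-- The difference body `D(K) = K + (-K)`. -/
def diffBody (K : Set Plane) : Set Plane := K + -K

/-- The Minkowski metric `ρ` with unit ball `½ D(K)`: the infimum of the `l ≥ 0` with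
`x - y ∈ l • ½ D(K)` (and `∞` if there is no such `l`). -/
noncomputable def rho (K : Set Plane) (x y : Plane) : ℝ≥0∞ :=
  ⨅ (l : ℝ≥0) (_ : x - y ∈ (l : ℝ) • ((1 / 2 : ℝ) • diffBody K)), (l : ℝ≥0∞)

/-- `X` is covered by `k` translates of `K`. -/
def CoveredByTranslates (K X : Set Plane) (k : ℕ) : Prop :=
  ∃ v : Fin k → Plane, X ⊆ ⋃ i, (fun y => y + v i) '' K

/-- The determinant of two vectors. -/
def det2 (a b : Plane) : ℝ := a 0 * b 1 - a 1 * b 0

lemma det2_continuous : Continuous fun q : Plane × Plane => det2 q.1 q.2 := by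
  unfold det2
  fun_prop

/-- Points at distance at most two differ by an element of the difference body. -/
lemma mem_of_rho_le {K : Set Plane} (hK : IsCompact K) (hc : Convex ℝ K) (hne : K.Nonempty)
    {x y : Plane} (h : rho K x y ≤ 2) : x - y ∈ diffBody K := by
  have hDc : Convex ℝ (diffBody K) := hc.add hc.neg
  have hDcl : IsClosed (diffBody K) := (hK.add hK.neg).isClosed
  have h0 : (0 : Plane) ∈ diffBody K := by
    obtain ⟨k, hk⟩ := hne
    exact ⟨k, hk, -k, by simpa using hk, by simp⟩
  -- for every `n`, `x - y ∈ (1 + 1/(n+1)) • D`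
  have key : ∀ n : ℕ, (1 + 1 / ((n : ℝ) + 1))⁻¹ • (x - y) ∈ diffBody K := by
    intro n
    have hn : (0 : ℝ) < 1 / ((n : ℝ) + 1) := by positivity
    have hlt : rho K x y < 2 + ENNReal.ofReal (2 * (1 / ((n : ℝ) + 1))) := by
      refine lt_of_le_of_lt h ?_
      refine ENNReal.lt_add_right (by norm_num) ?_
      simp only [ne_eq, ENNReal.ofReal_eq_zero, not_le]
      positivity
    unfold rho at hlt
    rw [iInf_lt_iff] at hlt
    obtain ⟨l, hl⟩ := hlt
    rw [iInf_lt_iff] at hl
    obtain ⟨hmem, hl⟩ := hl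
    have hl' : (l : ℝ) < 2 + 2 * (1 / ((n : ℝ) + 1)) := by
      have h2 : (2 : ℝ≥0∞) + ENNReal.ofReal (2 * (1 / ((n : ℝ) + 1))) =
          ENNReal.ofReal (2 + 2 * (1 / ((n : ℝ) + 1))) := by
        rw [ENNReal.ofReal_add (by norm_num) (by positivity)]
        norm_num
      rw [h2] at hl
      have h3 : (l : ℝ≥0∞) = ENNReal.ofReal (l : ℝ) := by simp
      rw [h3] at hl
      exact (ENNReal.ofReal_lt_ofReal_iff (by positivity)).1 hl
    obtain ⟨z, ⟨w, hw, rfl⟩, hz⟩ := hmem
    have hz : (l : ℝ) • ((1 / 2 : ℝ) • w) = x - y := hz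
    rw [← hz, smul_smul, smul_smul]
    have hpos : (0 : ℝ) < 1 + 1 / ((n : ℝ) + 1) := by positivity
    have hcoef : (1 + 1 / ((n : ℝ) + 1))⁻¹ * ((l : ℝ) * (1 / 2)) ≤ 1 := by
      rw [inv_mul_le_iff₀ hpos]
      linarith
    have hcoef0 : 0 ≤ (1 + 1 / ((n : ℝ) + 1))⁻¹ * ((l : ℝ) * (1 / 2)) := by positivity
    have h5 := hDc hw h0 hcoef0 (sub_nonneg.2 hcoef) (by ring)
    rwa [smul_zero, add_zero, ← mul_assoc] at h5
  have hlim : Filter.Tendsto (fun n : ℕ => (1 + 1 / ((n : ℝ) + 1))⁻¹ • (x - y)) Filter.atTop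
      (nhds ((1 + 0 : ℝ)⁻¹ • (x - y))) := by
    refine Filter.Tendsto.smul_const ?_ _
    refine Filter.Tendsto.inv₀ ?_ (by norm_num)
    exact tendsto_const_nhds.add tendsto_one_div_add_atTop_nhds_zero_nat
  have := hDcl.mem_of_tendsto hlim (Filter.Eventually.of_forall key)
  simpa using this

/-! ### The largest inscribed parallelogram -/

/-- `p, p + a, p + b, p + a + b` are points of `K`. -/
def IsPar (K : Set Plane) (p a b : Plane) : Prop :=
  p ∈ K ∧ p + a ∈ K ∧ p + b ∈ K ∧ p + a + b ∈ K

lemma IsPar.swap {K : Set Plane} {p a b : Plane} (h : IsPar K p a b) : IsPar K p b a :=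
  ⟨h.1, h.2.2.1, h.2.1, by rw [add_right_comm]; exact h.2.2.2⟩

lemma det2_swap (a b : Plane) : det2 b a = -det2 a b := by unfold det2; ring

lemma exists_max_par {K : Set Plane} (hK : IsCompact K) (hne : K.Nonempty) :
    ∃ p a b, IsPar K p a b ∧ ∀ p' a' b', IsPar K p' a' b' → |det2 a' b'| ≤ |det2 a b| := by
  obtain ⟨k, hk⟩ := hne
  let S : Set (Plane × Plane × Plane) := (K ×ˢ K ×ˢ K) ∩ (fun z => z.2.1 + z.2.2 - z.1) ⁻¹' K
  have hS : IsCompact S := by
    refine (hK.prod (hK.prod hK)).inter_right ?_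
    exact hK.isClosed.preimage (by fun_prop)
  have hSne : S.Nonempty := ⟨(k, k, k), ⟨⟨hk, hk, hk⟩, by simpa using hk⟩⟩
  have hcont : Continuous fun z : Plane × Plane × Plane => |det2 (z.2.1 - z.1) (z.2.2 - z.1)| := by
    unfold det2
    fun_prop
  obtain ⟨⟨p, q, r⟩, hz, hmax⟩ := hS.exists_isMaxOn hSne hcont.continuousOn
  obtain ⟨⟨hp, hq, hr⟩, hz4⟩ := hz
  refine ⟨p, q - p, r - p, ⟨hp, ?_, ?_, ?_⟩, ?_⟩
  · simpa using hq
  · simpa using hr
  · have : p + (q - p) + (r - p) = q + r - p := by abel
    rw [this]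
    exact hz4
  · intro p' a' b' h
    have hmem : (p', p' + a', p' + b') ∈ S := by
      refine ⟨⟨h.1, h.2.1, h.2.2.1⟩, ?_⟩
      have : p' + a' + (p' + b') - p' = p' + a' + b' := by abel
      change p' + a' + (p' + b') - p' ∈ K
      rw [this]
      exact h.2.2.2
    have := hmax hmem
    simpa using this

/-- If the parallelogram is the largest one, `K` is not wide. -/
lemma width {K : Set Plane} (hc : Convex ℝ K) {p a b : Plane} (h : IsPar K p a b)
    (hmax : ∀ p' a' b', IsPar K p' a' b' → |det2 a' b'| ≤ |det2 a b|) (h0 : det2 a b ≠ 0)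
    {x y : Plane} (hx : x ∈ K) (hy : y ∈ K) : det2 a (y - x) / det2 a b ≤ 2 := by
  by_contra hcon
  push Not at hcon
  set D := det2 a b with hD
  set W := det2 a (y - x) / D with hW
  have hWD : det2 a (y - x) = W * D := by rw [hW]; field_simp
  have hW1 : 0 < W - 1 := by linarith
  set e := (W - 2) / (2 * (W - 1)) with he
  have he0 : 0 ≤ e := by rw [he]; apply div_nonneg <;> linarith
  have he1 : e ≤ 1 := by rw [he, div_le_one (by linarith)]; linarith
  have hpar : IsPar K ((1 - e) • p + e • x) ((1 - e) • a) ((1 - e) • b + e • (y - x)) := by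
    refine ⟨?_, ?_, ?_, ?_⟩
    · exact hc h.1 hx (by linarith) he0 (by ring)
    · have := hc h.2.1 hx (by linarith : 0 ≤ 1 - e) he0 (by ring)
      convert this using 1
      module
    · have := hc h.2.2.1 hy (by linarith : 0 ≤ 1 - e) he0 (by ring)
      convert this using 1
      module
    · have := hc h.2.2.2 hy (by linarith : 0 ≤ 1 - e) he0 (by ring)
      convert this using 1
      module
  have h1 := hmax _ _ _ hpar
  have h2 : det2 ((1 - e) • a) ((1 - e) • b + e • (y - x)) = D * (W ^ 2 / (4 * (W - 1))) := by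
    have h3 : det2 ((1 - e) • a) ((1 - e) • b + e • (y - x)) =
        (1 - e) * ((1 - e) * det2 a b + e * det2 a (y - x)) := by
      simp only [det2, PiLp.add_apply, PiLp.sub_apply, PiLp.smul_apply, smul_eq_mul]
      ring
    rw [h3, hWD, ← hD, he]
    field_simp
    ring
  rw [h2, abs_mul] at h1
  have h4 : 1 < W ^ 2 / (4 * (W - 1)) := by
    rw [lt_div_iff₀ (by linarith)]
    nlinarith
  rw [abs_of_pos (by linarith : (0 : ℝ) < W ^ 2 / (4 * (W - 1)))] at h1
  have h5 : 0 < |D| := abs_pos.2 h0
  nlinarith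

/-- Every vector in the coordinates given by `a` and `b`. -/
lemma coords {a b : Plane} (h0 : det2 a b ≠ 0) (x : Plane) :
    x = (det2 x b / det2 a b) • a + (det2 a x / det2 a b) • b := by
  ext i
  have : det2 a b * x i = det2 x b * a i + det2 a x * b i := by
    fin_cases i <;> simp [det2] <;> ring
  simp only [PiLp.add_apply, PiLp.smul_apply, smul_eq_mul]
  field_simp
  linarith

/-- The parallelogram is in `K`. -/
lemma par_subset {K : Set Plane} (hc : Convex ℝ K) {p a b : Plane} (h : IsPar K p a b)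
    {u v : ℝ} (hu : 0 ≤ u) (hu1 : u ≤ 1) (hv : 0 ≤ v) (hv1 : v ≤ 1) :
    p + u • a + v • b ∈ K := by
  have h1 : (1 - u) • p + u • (p + a) ∈ K := hc h.1 h.2.1 (by linarith) hu (by ring)
  have h2 : (1 - u) • (p + b) + u • (p + a + b) ∈ K :=
    hc h.2.2.1 h.2.2.2 (by linarith) hu (by ring)
  have h3 := hc h1 h2 (by linarith : 0 ≤ 1 - v) hv (by ring)
  convert h3 using 1
  module

/-- For a functional bounded by `c` on cross differences, all but at most one set have extent at
most `c`. -/
lemma few_bad {ι : Type*} (X : ι → Set Plane) (f : Plane → ℝ) (c : ℝ)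
    (h : ∀ i j, i ≠ j → ∀ x ∈ X i, ∀ y ∈ X j, f x - f y ≤ c) :
    ∃ s : Finset ι, s.card ≤ 1 ∧ ∀ i, i ∉ s → ∀ x ∈ X i, ∀ y ∈ X i, f x - f y ≤ c := by
  classical
  by_cases hb : ∃ i, ∃ x ∈ X i, ∃ y ∈ X i, c < f x - f y
  · obtain ⟨i, x, hx, y, hy, hxy⟩ := hb
    refine ⟨{i}, by simp, fun j hj x' hx' y' hy' => ?_⟩
    have hij : i ≠ j := fun he => hj (by simp [he])
    have h1 := h i j hij x hx y' hy'
    have h2 := h j i hij.symm x' hx' y hy
    linarith
  · push Not at hb
    exact ⟨∅, by simp, fun i _ x hx y hy => hb i x hx y hy⟩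

/-- The determinant form is linear in the differences. -/
lemma det2_sub_left (x y b : Plane) : det2 (x - y) b = det2 x b - det2 y b := by
  simp only [det2, PiLp.sub_apply]; ring

lemma det2_sub_right (a x y : Plane) : det2 a (x - y) = det2 a x - det2 a y := by
  simp only [det2, PiLp.sub_apply]; ring

/-- A set which has both extents at most `2` is covered by four translates. -/
lemma cover_good {K : Set Plane} (hc : Convex ℝ K) {p a b : Plane} (h : IsPar K p a b)
    (h0 : det2 a b ≠ 0) {X : Set Plane} (hfin : X.Finite) (hne : X.Nonempty)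
    (hs : ∀ x ∈ X, ∀ y ∈ X, det2 x b / det2 a b - det2 y b / det2 a b ≤ 2)
    (ht : ∀ x ∈ X, ∀ y ∈ X, det2 a x / det2 a b - det2 a y / det2 a b ≤ 2) :
    CoveredByTranslates K X 4 := by
  obtain ⟨xs, hxs, hmins⟩ := Set.exists_min_image X (fun x => det2 x b / det2 a b) hfin hne
  obtain ⟨xt, hxt, hmint⟩ := Set.exists_min_image X (fun x => det2 a x / det2 a b) hfin hne
  set s0 := det2 xs b / det2 a b with hs0
  set t0 := det2 a xt / det2 a b with ht0
  let w : ℝ → ℝ → Plane := fun α β => (s0 + α) • a + (t0 + β) • b - p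
  refine ⟨![w 0 0, w 0 1, w 1 0, w 1 1], fun x hx => ?_⟩
  have hx1 := hs x hx xs hxs
  have hx2 := ht x hx xt hxt
  have hx3 := hmins x hx
  have hx4 := hmint x hx
  rw [← hs0] at hx1
  rw [← ht0] at hx2
  have hcx := coords h0 x
  set s := det2 x b / det2 a b with hsdef
  set t := det2 a x / det2 a b with htdef
  have main : ∀ α β : ℝ, 0 ≤ s - s0 - α → s - s0 - α ≤ 1 → 0 ≤ t - t0 - β → t - t0 - β ≤ 1 →
      x ∈ (fun y => y + w α β) '' K := by
    intro α β h1 h2 h3 h4
    refine ⟨p + (s - s0 - α) • a + (t - t0 - β) • b, par_subset hc h h1 h2 h3 h4, ?_⟩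
    simp only [w]
    rw [hcx]
    module
  rw [Set.mem_iUnion]
  by_cases c1 : s - s0 ≤ 1 <;> by_cases c2 : t - t0 ≤ 1
  · exact ⟨0, main 0 0 (by linarith) (by linarith) (by linarith) (by linarith)⟩
  · exact ⟨1, main 0 1 (by linarith) (by linarith) (by linarith) (by linarith)⟩
  · exact ⟨2, main 1 0 (by linarith) (by linarith) (by linarith) (by linarith)⟩
  · exact ⟨3, main 1 1 (by linarith) (by linarith) (by linarith) (by linarith)⟩

/-- The degenerate case, in which `K` is contained in a segment with end points in `K`. -/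
lemma segment_of_degenerate {K : Set Plane} (hK : IsCompact K) (hc : Convex ℝ K)
    (hne : K.Nonempty) (hdeg : ∀ p a b, IsPar K p a b → det2 a b = 0) :
    ∃ p d : Plane, (∀ u : ℝ, 0 ≤ u → u ≤ 1 → p + u • d ∈ K) ∧
      ∀ x ∈ K, ∃ u : ℝ, 0 ≤ u ∧ u ≤ 1 ∧ x = p + u • d := by
  -- all triples are collinear
  have hcol : ∀ x ∈ K, ∀ y ∈ K, ∀ z ∈ K, det2 (y - x) (z - x) = 0 := by
    intro x hx y hy z hz
    have hpar : IsPar K x ((1 / 2 : ℝ) • (y - x)) ((1 / 2 : ℝ) • (z - x)) := by
      refine ⟨hx, ?_, ?_, ?_⟩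
      · have := hc hx hy (by norm_num : (0 : ℝ) ≤ 1 / 2) (by norm_num : (0 : ℝ) ≤ 1 / 2)
          (by norm_num)
        convert this using 1
        module
      · have := hc hx hz (by norm_num : (0 : ℝ) ≤ 1 / 2) (by norm_num : (0 : ℝ) ≤ 1 / 2)
          (by norm_num)
        convert this using 1
        module
      · have := hc hy hz (by norm_num : (0 : ℝ) ≤ 1 / 2) (by norm_num : (0 : ℝ) ≤ 1 / 2)
          (by norm_num)
        convert this using 1
        module
    have h1 := hdeg _ _ _ hpar
    have h2 : det2 ((1 / 2 : ℝ) • (y - x)) ((1 / 2 : ℝ) • (z - x)) =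
        1 / 4 * det2 (y - x) (z - x) := by
      simp only [det2, PiLp.sub_apply, PiLp.smul_apply, smul_eq_mul]
      ring
    rw [h2] at h1
    linarith
  -- the two points with the largest distance
  have hcont : Continuous fun z : Plane × Plane => dist z.1 z.2 := by fun_prop
  obtain ⟨⟨p, q⟩, ⟨hp, hq⟩, hmax⟩ :=
    (hK.prod hK).exists_isMaxOn (hne.prod hne) hcont.continuousOn
  have hp : p ∈ K := hp
  have hq : q ∈ K := hq
  have hmax' : ∀ x ∈ K, ∀ y ∈ K, dist x y ≤ dist p q := fun x hx y hy =>
    hmax (a := (x, y)) ⟨hx, hy⟩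
  refine ⟨p, q - p, fun u hu hu1 => ?_, fun x hx => ?_⟩
  · have := hc hp hq (by linarith : 0 ≤ 1 - u) hu (by ring)
    convert this using 1
    module
  · by_cases hpq : q = p
    · refine ⟨0, le_rfl, zero_le_one, ?_⟩
      have := hmax' x hx p hp
      rw [hpq, dist_self] at this
      have h3 : x = p := dist_le_zero.1 this
      rw [h3]
      simp
    · have hd : 0 < dist p q := dist_pos.2 (Ne.symm hpq)
      -- the coordinate along the segment
      have hdet := hcol p hp q hq x hx
      have hn : 0 < (q - p) 0 ^ 2 + (q - p) 1 ^ 2 := by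
        have h3 : ¬ ((q - p) 0 = 0 ∧ (q - p) 1 = 0) := by
          rintro ⟨h4, h5⟩
          apply hpq
          have : q - p = 0 := by
            ext i
            fin_cases i
            · simpa using h4
            · simpa using h5
          exact sub_eq_zero.1 this
        by_contra h6
        push Not at h6
        apply h3
        constructor <;> nlinarith [sq_nonneg ((q - p) 0), sq_nonneg ((q - p) 1)]
      set u := ((x - p) 0 * (q - p) 0 + (x - p) 1 * (q - p) 1) /
        ((q - p) 0 ^ 2 + (q - p) 1 ^ 2) with hu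
      have hxu : x - p = u • (q - p) := by
        unfold det2 at hdet
        ext i
        have : ((q - p) 0 ^ 2 + (q - p) 1 ^ 2) * (x - p) i =
            ((x - p) 0 * (q - p) 0 + (x - p) 1 * (q - p) 1) * (q - p) i := by
          fin_cases i
          · simp only [Fin.zero_eta]
            linear_combination (-(q - p) 1) * hdet
          · simp only [Fin.mk_one]
            linear_combination ((q - p) 0) * hdet
        rw [PiLp.smul_apply, smul_eq_mul, hu]
        field_simp
        linarith
      have hdist1 : dist x p = |u| * dist p q := by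
        rw [dist_eq_norm, hxu, norm_smul, Real.norm_eq_abs, dist_comm, dist_eq_norm]
      have hdist2 : dist x q = |u - 1| * dist p q := by
        have : x - q = (u - 1) • (q - p) := by
          rw [sub_smul, ← hxu, one_smul]
          abel
        rw [dist_eq_norm, this, norm_smul, Real.norm_eq_abs, dist_comm, dist_eq_norm]
      have h7 := hmax' x hx p hp
      have h8 := hmax' x hx q hq
      rw [hdist1] at h7
      rw [hdist2] at h8
      have h9 : |u| ≤ 1 := by nlinarith
      have h10 : |u - 1| ≤ 1 := by nlinarith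
      rw [abs_le] at h9 h10
      refine ⟨u, by linarith, h9.2, ?_⟩
      rw [← hxu]
      abel

/-- **MP_70580c_co with four translates.** -/
theorem result (K : Set Plane) (hK : IsCompact K) (hc : Convex ℝ K) (hne : K.Nonempty)
    {ι : Type*} (X : ι → Set Plane) (hfin : ∀ i, (X i).Finite) (hX : ∀ i, (X i).Nonempty)
    (hρ : ∀ i j, i ≠ j → ∀ x ∈ X i, ∀ y ∈ X j, rho K x y ≤ 2) :
    ∃ s : Finset ι, s.card ≤ 2 ∧ ∀ i, i ∉ s → CoveredByTranslates K (X i) 4 := by
  classical
  have hD : ∀ i j, i ≠ j → ∀ x ∈ X i, ∀ y ∈ X j, ∃ k ∈ K, ∃ l ∈ K, x - y = k - l := by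
    intro i j hij x hx y hy
    obtain ⟨k, hk, l, hl, hkl⟩ := mem_of_rho_le hK hc hne (hρ i j hij x hx y hy)
    have hkl : k + l = x - y := hkl
    exact ⟨k, hk, -l, hl, by rw [← hkl]; abel⟩
  obtain ⟨p, a, b, hpar, hmax⟩ := exists_max_par hK hne
  by_cases h0 : det2 a b = 0
  · -- degenerate case
    have hdeg : ∀ p' a' b', IsPar K p' a' b' → det2 a' b' = 0 := by
      intro p' a' b' h
      have := hmax p' a' b' h
      rw [h0, abs_zero] at this
      exact abs_eq_zero.1 (le_antisymm this (abs_nonneg _))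
    obtain ⟨p, d, hseg, hKseg⟩ := segment_of_degenerate hK hc hne hdeg
    have hcross : ∀ i j, i ≠ j → ∀ x ∈ X i, ∀ y ∈ X j, ∃ u : ℝ, |u| ≤ 1 ∧ x - y = u • d := by
      intro i j hij x hx y hy
      obtain ⟨k, hk, l, hl, hkl⟩ := hD i j hij x hx y hy
      obtain ⟨u, hu, hu1, rfl⟩ := hKseg k hk
      obtain ⟨v, hv, hv1, rfl⟩ := hKseg l hl
      refine ⟨u - v, by rw [abs_le]; constructor <;> linarith, ?_⟩
      rw [hkl]
      module
    by_cases hι : ∃ i0 : ι, ∀ j, j = i0
    · obtain ⟨i0, hi0⟩ := hι
      exact ⟨{i0}, by simp, fun i hi => absurd (hi0 i) (by simpa using hi)⟩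
    push Not at hι
    by_cases hd0 : d = 0
    · refine ⟨∅, by simp, fun i _ => ?_⟩
      obtain ⟨j, hj⟩ := hι i
      obtain ⟨y, hy⟩ := hX j
      refine ⟨fun _ => y - p, fun x hx => ?_⟩
      obtain ⟨u, -, hu⟩ := hcross i j hj.symm x hx y hy
      rw [hd0, smul_zero, sub_eq_zero] at hu
      rw [Set.mem_iUnion]
      refine ⟨0, p, ?_, ?_⟩
      · have := hseg 0 le_rfl zero_le_one
        simpa using this
      · simp [hu]
    · -- the coordinate along `d`
      have hn : 0 < d 0 ^ 2 + d 1 ^ 2 := by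
        by_contra h6
        push Not at h6
        apply hd0
        ext i
        have h7 : d 0 = 0 := by nlinarith [sq_nonneg (d 0), sq_nonneg (d 1)]
        have h8 : d 1 = 0 := by nlinarith [sq_nonneg (d 0), sq_nonneg (d 1)]
        fin_cases i
        · simpa using h7
        · simpa using h8
      let g : Plane → ℝ := fun x => (x 0 * d 0 + x 1 * d 1) / (d 0 ^ 2 + d 1 ^ 2)
      have hg : ∀ x y : Plane, ∀ u : ℝ, x - y = u • d → g x - g y = u := by
        intro x y u hu
        have hxy : x = y + u • d := by rw [← hu]; abel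
        simp only [g, hxy, PiLp.add_apply, PiLp.smul_apply, smul_eq_mul]
        field_simp
        ring
      obtain ⟨s, hs, hgood⟩ := few_bad X g 1 (by
        intro i j hij x hx y hy
        obtain ⟨u, hu, hxy⟩ := hcross i j hij x hx y hy
        rw [hg x y u hxy]
        exact (abs_le.1 hu).2)
      refine ⟨s, by omega, fun i hi => ?_⟩
      obtain ⟨j, hj⟩ := hι i
      obtain ⟨z, hz⟩ := hX j
      obtain ⟨x0, hx0, hmin⟩ := Set.exists_min_image (X i) g (hfin i) (hX i)
      refine ⟨fun _ => x0 - p, fun x hx => ?_⟩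
      obtain ⟨u, -, hu⟩ := hcross i j hj.symm x hx z hz
      obtain ⟨v, -, hv⟩ := hcross i j hj.symm x0 hx0 z hz
      have hxx0 : x - x0 = (u - v) • d := by
        rw [sub_smul, ← hu, ← hv]
        abel
      have h1 := hg x x0 _ hxx0
      have h2 := hgood i hi x hx x0 hx0
      have h3 := hmin x hx
      rw [Set.mem_iUnion]
      refine ⟨0, p + (u - v) • d, hseg _ (by linarith) (by linarith), ?_⟩
      simp only [← hxx0]
      abel
  · -- the main case
    have ws : ∀ x ∈ K, ∀ y ∈ K, det2 (y - x) b / det2 a b ≤ 2 := by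
      intro x hx y hy
      have h1 := width hc hpar.swap (by
        intro p' a' b' h
        rw [det2_swap a b, abs_neg]
        exact hmax _ _ _ h) (by rw [det2_swap a b]; exact neg_ne_zero.2 h0) hx hy
      rw [det2_swap a b, det2_swap (y - x) b, neg_div_neg_eq] at h1
      exact h1
    have wt : ∀ x ∈ K, ∀ y ∈ K, det2 a (y - x) / det2 a b ≤ 2 :=
      fun x hx y hy => width hc hpar hmax h0 hx hy
    obtain ⟨s1, hs1, hgood1⟩ := few_bad X (fun x => det2 x b / det2 a b) 2 (by
      intro i j hij x hx y hy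
      obtain ⟨k, hk, l, hl, hkl⟩ := hD i j hij x hx y hy
      have := ws l hl k hk
      rw [← hkl, det2_sub_left, sub_div] at this
      exact this)
    obtain ⟨s2, hs2, hgood2⟩ := few_bad X (fun x => det2 a x / det2 a b) 2 (by
      intro i j hij x hx y hy
      obtain ⟨k, hk, l, hl, hkl⟩ := hD i j hij x hx y hy
      have := wt l hl k hk
      rw [← hkl, det2_sub_right, sub_div] at this
      exact this)
    refine ⟨s1 ∪ s2, ?_, fun i hi => ?_⟩
    · have := Finset.card_union_le s1 s2
      omega
    · rw [Finset.mem_union, not_or] at hi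
      exact cover_good hc hpar h0 (hfin i) (hX i) (hgood1 i hi.1) (hgood2 i hi.2)

end Pool.Agent.Results.MP_70580c_co.FourTranslates
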